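import Pool.Agent.Q282.OI.Stm

/-!
# Project OI (helper282), job WE (helper235)

Quadratic forms of even dimension over `ℚ_ℓ`, `ℓ` odd: splitting off hyperbolic planes, the
remaining diagonal form of dimension four in two normal forms.
-/

set_option autoImplicit false

open Matrix

namespace Pool.Agent.Q235.OI.WE

section alg

variable {K : Type} [Field K]

/-- congruence of diagonal quaternary forms -/
def Cong (d d' : Fin 4 → K) : Prop :=
  ∃ P P' : Matrix (Fin 4) (Fin 4) K, P * P' = 1 ∧ P' * P = 1 ∧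
    Pᵀ * diagonal d * P = diagonal d'

theorem Cong.trans {d d' d'' : Fin 4 → K} (h : Cong d d') (h' : Cong d' d'') : Cong d d'' := by
  obtain ⟨P, P', h1, h2, h3⟩ := h
  obtain ⟨R, R', k1, k2, k3⟩ := h'
  refine ⟨P * R, R' * P', ?_, ?_, ?_⟩
  · rw [Matrix.mul_assoc, ← Matrix.mul_assoc R, k1, Matrix.one_mul, h1]
  · rw [Matrix.mul_assoc, ← Matrix.mul_assoc P', h2, Matrix.one_mul, k2]
  · rw [← k3, ← h3, transpose_mul]
    simp only [Matrix.mul_assoc]

theorem cong_perm (d : Fin 4 → K) (σ : Equiv.Perm (Fin 4)) : Cong d (fun i => d (σ i)) := by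
  refine ⟨(1 : Matrix (Fin 4) (Fin 4) K).submatrix id σ,
    (1 : Matrix (Fin 4) (Fin 4) K).submatrix σ id, ?_, ?_, ?_⟩
  · rw [← Matrix.submatrix_mul 1 1 id σ id σ.bijective, Matrix.one_mul, submatrix_id_id]
  · rw [← Matrix.submatrix_mul 1 1 σ id σ Function.bijective_id, Matrix.one_mul,
      submatrix_one_equiv]
  · ext i j
    simp only [Matrix.mul_apply, Matrix.one_apply, diagonal_apply, transpose_apply, submatrix_apply,
      id_eq, ite_mul, one_mul, zero_mul, mul_ite, mul_one, mul_zero, Finset.sum_ite_eq',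
      Finset.mem_univ, if_true]
    by_cases hij : i = j
    · subst hij
      simp
    · simp [hij, Ne.symm hij, σ.injective.eq_iff]

omit [Field K] in
theorem vec_eq (d : Fin 4 → K) : d = ![d 0, d 1, d 2, d 3] := by
  funext i
  fin_cases i <;> rfl

theorem cong_bin (a b g h x y c : K) (hc : c ≠ 0) (hxy : a * x ^ 2 + b * y ^ 2 = c) :
    Cong ![a, b, g, h] ![c, a * b * c, g, h] := by
  have e1 : c⁻¹ * c = 1 := inv_mul_cancel₀ hc
  refine ⟨!![x, -(b * y), 0, 0; y, a * x, 0, 0; 0, 0, 1, 0; 0, 0, 0, 1],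
    !![a * x * c⁻¹, b * y * c⁻¹, 0, 0; -(y * c⁻¹), x * c⁻¹, 0, 0; 0, 0, 1, 0; 0, 0, 0, 1],
    ?_, ?_, ?_⟩
  · ext i j
    fin_cases i <;> fin_cases j <;>
      simp [Matrix.mul_apply, Fin.sum_univ_four] <;>
      first | ring1 | linear_combination c⁻¹ * hxy + e1
  · ext i j
    fin_cases i <;> fin_cases j <;>
      simp [Matrix.mul_apply, Fin.sum_univ_four] <;>
      first | ring1 | linear_combination c⁻¹ * hxy + e1
  · ext i j
    fin_cases i <;> fin_cases j <;>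
      simp [Matrix.mul_apply, Fin.sum_univ_four] <;>
      first | ring1 | linear_combination hxy | linear_combination a * b * hxy

end alg

section padic

variable {ℓ : ℕ} [Fact ℓ.Prime]

theorem p_ne : (ℓ : ℚ_[ℓ]) ≠ 0 := by
  exact_mod_cast (Fact.out : ℓ.Prime).ne_zero

theorem unit_norm {x : ℚ_[ℓ]} (hx : x ≠ 0) : ‖x * (ℓ : ℚ_[ℓ]) ^ (-x.valuation)‖ = 1 := by
  have hl : (0 : ℝ) < ℓ := by exact_mod_cast (Fact.out : ℓ.Prime).pos
  rw [norm_mul, Padic.norm_eq_zpow_neg_valuation hx, Padic.norm_p_zpow, ← zpow_add₀ hl.ne',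
    neg_neg, neg_add_cancel, zpow_zero]

/-- ternary forms with coefficients of the same parity are isotropic -/
theorem iso (hI : Pool.Agent.Q282.OI.S_ISO3) (hℓ : ℓ ≠ 2) {a b g : ℚ_[ℓ]} (ha : a ≠ 0)
    (hb : b ≠ 0) (hg : g ≠ 0) (h1 : Even (b.valuation - a.valuation))
    (h2 : Even (g.valuation - a.valuation)) :
    ∃ x y z : ℚ_[ℓ], (x ≠ 0 ∨ y ≠ 0 ∨ z ≠ 0) ∧ a * x ^ 2 + b * y ^ 2 + g * z ^ 2 = 0 := by
  obtain ⟨k, hk⟩ := h1
  obtain ⟨m, hm⟩ := h2
  obtain ⟨x, hx0, hx⟩ := hI ℓ hℓ ![a * (ℓ : ℚ_[ℓ]) ^ (-a.valuation),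
    b * (ℓ : ℚ_[ℓ]) ^ (-b.valuation), g * (ℓ : ℚ_[ℓ]) ^ (-g.valuation)] (by
      intro i
      fin_cases i
      · exact unit_norm ha
      · exact unit_norm hb
      · exact unit_norm hg)
  have hp := p_ne (ℓ := ℓ)
  rw [Fin.sum_univ_three] at hx
  have hx' : a * (ℓ : ℚ_[ℓ]) ^ (-a.valuation) * x 0 ^ 2 + b * (ℓ : ℚ_[ℓ]) ^ (-b.valuation) * x 1 ^ 2
    + g * (ℓ : ℚ_[ℓ]) ^ (-g.valuation) * x 2 ^ 2 = 0 := hx
  have e1 : (ℓ : ℚ_[ℓ]) ^ (-b.valuation) =
      (ℓ : ℚ_[ℓ]) ^ (-a.valuation) * ((ℓ : ℚ_[ℓ]) ^ (-k)) ^ 2 := by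
    rw [pow_two, ← zpow_add₀ hp, ← zpow_add₀ hp]
    congr 1
    omega
  have e2 : (ℓ : ℚ_[ℓ]) ^ (-g.valuation) =
      (ℓ : ℚ_[ℓ]) ^ (-a.valuation) * ((ℓ : ℚ_[ℓ]) ^ (-m)) ^ 2 := by
    rw [pow_two, ← zpow_add₀ hp, ← zpow_add₀ hp]
    congr 1
    omega
  have e3 : (ℓ : ℚ_[ℓ]) ^ (-a.valuation) ≠ 0 := zpow_ne_zero _ hp
  refine ⟨x 0, (ℓ : ℚ_[ℓ]) ^ (-k) * x 1, (ℓ : ℚ_[ℓ]) ^ (-m) * x 2, ?_, ?_⟩
  · by_contra hc
    push Not at hc
    obtain ⟨c1, c2, c3⟩ := hc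
    apply hx0
    funext i
    fin_cases i
    · exact c1
    · exact (mul_eq_zero.1 c2).resolve_left (zpow_ne_zero _ hp)
    · exact (mul_eq_zero.1 c3).resolve_left (zpow_ne_zero _ hp)
  · refine mul_left_cancel₀ e3 ?_
    rw [e1, e2] at hx'
    linear_combination hx'

/-- the conclusion: both products of pairs have odd (`true`) or even valuation -/
def Good (o : Prop) (d : Fin 4 → ℚ_[ℓ]) : Prop :=
  ∃ d' : Fin 4 → ℚ_[ℓ], Cong d d' ∧ (∀ i, d' i ≠ 0) ∧
    (o → Odd (Padic.valuation (d' 0 * d' 1)) ∧ Odd (Padic.valuation (d' 2 * d' 3))) ∧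
    (¬ o → Even (Padic.valuation (d' 0 * d' 1)) ∧ Even (Padic.valuation (d' 2 * d' 3)))

theorem Good.of_cong {o : Prop} {d d' : Fin 4 → ℚ_[ℓ]} (h : Cong d d') (h' : Good o d') :
    Good o d := by
  obtain ⟨d'', h1, h2⟩ := h'
  exact ⟨d'', h.trans h1, h2⟩

theorem good_of_vec {o : Prop} {a b g h : ℚ_[ℓ]} (ha : a ≠ 0) (hb : b ≠ 0) (hg : g ≠ 0)
    (hh : h ≠ 0) (h1 : o → Odd (a.valuation + b.valuation) ∧ Odd (g.valuation + h.valuation))
    (h2 : ¬ o → Even (a.valuation + b.valuation) ∧ Even (g.valuation + h.valuation)) :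
    Good o ![a, b, g, h] := by
  refine ⟨![a, b, g, h], ?_, ?_, ?_, ?_⟩
  · exact ⟨1, 1, by rw [Matrix.one_mul], by rw [Matrix.one_mul],
      by rw [transpose_one, Matrix.one_mul, Matrix.mul_one]⟩
  · intro i
    fin_cases i
    · exact ha
    · exact hb
    · exact hg
    · exact hh
  · intro ho
    change Odd (Padic.valuation (a * b)) ∧ Odd (Padic.valuation (g * h))
    rw [Padic.valuation_mul ha hb, Padic.valuation_mul hg hh]
    exact h1 ho
  · intro ho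
    change Even (Padic.valuation (a * b)) ∧ Even (Padic.valuation (g * h))
    rw [Padic.valuation_mul ha hb, Padic.valuation_mul hg hh]
    exact h2 ho

theorem cong_0213 (a b g h : ℚ_[ℓ]) : Cong ![a, b, g, h] ![a, g, b, h] := by
  have h1 := cong_perm ![a, b, g, h] (Equiv.swap 1 2)
  convert! h1 using 1
  funext i
  fin_cases i <;> rfl

theorem cong_0321 (a b g h : ℚ_[ℓ]) : Cong ![a, b, g, h] ![a, h, g, b] := by
  have h1 := cong_perm ![a, b, g, h] (Equiv.swap 1 3)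
  convert! h1 using 1
  funext i
  fin_cases i <;> rfl

theorem cong_2103 (a b g h : ℚ_[ℓ]) : Cong ![a, b, g, h] ![g, b, a, h] := by
  have h1 := cong_perm ![a, b, g, h] (Equiv.swap 0 2)
  convert! h1 using 1
  funext i
  fin_cases i <;> rfl

theorem cong_1023 (a b g h : ℚ_[ℓ]) : Cong ![a, b, g, h] ![b, a, g, h] := by
  have h1 := cong_perm ![a, b, g, h] (Equiv.swap 0 1)
  convert! h1 using 1
  funext i
  fin_cases i <;> rfl

/-- four coefficients of the same parity, `z ≠ 0` -/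
theorem flip_z {a b g h x y z : ℚ_[ℓ]} (ha : a ≠ 0) (hb : b ≠ 0) (hg : g ≠ 0) (hh : h ≠ 0)
    (hz : z ≠ 0) (hxyz : a * x ^ 2 + b * y ^ 2 + g * z ^ 2 = 0)
    (pb : Even (b.valuation - a.valuation)) (pg : Even (g.valuation - a.valuation))
    (ph : Even (h.valuation - a.valuation)) : Good True ![a, b, g, h] := by
  have hp := p_ne (ℓ := ℓ)
  set c : ℚ_[ℓ] := -(g * z ^ 2) with hc
  have hc0 : c ≠ 0 := neg_ne_zero.2 (mul_ne_zero hg (pow_ne_zero 2 hz))
  set s : ℚ_[ℓ] := ℓ * h with hs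
  have hs0 : s ≠ 0 := mul_ne_zero hp hh
  refine Good.of_cong (cong_bin a b g h x y c hc0 (by rw [hc]; linear_combination hxyz)) ?_
  -- `c, a b c, g, h`
  refine Good.of_cong (cong_2103 _ _ _ _) ?_
  -- `g, a b c, c, h`
  refine Good.of_cong (cong_0213 _ _ _ _) ?_
  -- `g, c, a b c, h`
  have h2 : (2 : ℚ_[ℓ]) ≠ 0 := two_ne_zero
  refine Good.of_cong (cong_bin g c (a * b * c) h ((s / g + 1) / 2) ((s / g - 1) / (2 * z)) s hs0
    (by rw [hc]; field_simp; ring)) ?_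
  -- `s, g c s, a b c, h`
  refine Good.of_cong (cong_0213 _ _ _ _) ?_
  -- `s, a b c, g c s, h`
  have hab : a * b ≠ 0 := mul_ne_zero ha hb
  have hgc : g * c ≠ 0 := mul_ne_zero hg hc0
  refine good_of_vec hs0 (mul_ne_zero hab hc0) (mul_ne_zero hgc hs0) hh (fun _ => ?_)
    (fun h => absurd trivial h)
  have v1 : s.valuation = 1 + h.valuation := by
    rw [hs, Padic.valuation_mul hp hh, Padic.valuation_p]
  have v2 : c.valuation = g.valuation + 2 * z.valuation := by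
    have e : c = -1 * (g * z ^ 2) := by rw [hc]; ring
    rw [e, Padic.valuation_mul (neg_ne_zero.2 one_ne_zero) (mul_ne_zero hg (pow_ne_zero 2 hz)),
      Padic.valuation_mul hg (pow_ne_zero 2 hz), Padic.valuation_pow]
    have e2 : Padic.valuation (-1 : ℚ_[ℓ]) = 0 := by
      have e3 := Padic.valuation_mul (p := ℓ) (x := -1) (y := -1) (neg_ne_zero.2 one_ne_zero)
        (neg_ne_zero.2 one_ne_zero)
      have e4 : (-1 : ℚ_[ℓ]) * -1 = 1 := by ring
      rw [e4, Padic.valuation_one] at e3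
      omega
    rw [e2]
    push_cast
    ring
  rw [Padic.valuation_mul hab hc0, Padic.valuation_mul ha hb, Padic.valuation_mul hgc hs0,
    Padic.valuation_mul hg hc0, v1, v2]
  obtain ⟨k, hk⟩ := pb
  obtain ⟨m, hm⟩ := pg
  obtain ⟨n, hn⟩ := ph
  constructor
  · rw [Int.odd_iff]
    omega
  · rw [Int.odd_iff]
    omega

theorem flip (hI : Pool.Agent.Q282.OI.S_ISO3) (hℓ : ℓ ≠ 2) {a b g h : ℚ_[ℓ]} (ha : a ≠ 0)
    (hb : b ≠ 0) (hg : g ≠ 0) (hh : h ≠ 0) (pb : Even (b.valuation - a.valuation))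
    (pg : Even (g.valuation - a.valuation)) (ph : Even (h.valuation - a.valuation)) :
    Good True ![a, b, g, h] := by
  obtain ⟨x, y, z, hne, hxyz⟩ := iso hI hℓ ha hb hg pb pg
  rw [Int.even_iff] at pb pg ph
  rcases hne with hx | hy | hz
  · refine Good.of_cong (cong_2103 _ _ _ _) ?_
    exact flip_z (x := z) (y := y) (z := x) hg hb ha hh hx (by linear_combination hxyz)
      (by rw [Int.even_iff]; omega) (by rw [Int.even_iff]; omega) (by rw [Int.even_iff]; omega)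
  · refine Good.of_cong (cong_0213 _ _ _ _) ?_
    exact flip_z (x := x) (y := z) (z := y) ha hg hb hh hy (by linear_combination hxyz)
      (by rw [Int.even_iff]; omega) (by rw [Int.even_iff]; omega) (by rw [Int.even_iff]; omega)
  · exact flip_z ha hb hg hh hz hxyz
      (by rw [Int.even_iff]; omega) (by rw [Int.even_iff]; omega) (by rw [Int.even_iff]; omega)

theorem core (hI : Pool.Agent.Q282.OI.S_ISO3) (hℓ : ℓ ≠ 2) {a b g h : ℚ_[ℓ]} (ha : a ≠ 0)
    (hb : b ≠ 0) (hg : g ≠ 0) (hh : h ≠ 0)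
    (he : Even (a.valuation + b.valuation + g.valuation + h.valuation)) :
    Good True ![a, b, g, h] ∧ Good False ![a, b, g, h] := by
  rw [Int.even_iff] at he
  constructor
  · by_cases h1 : Odd (a.valuation + b.valuation)
    · rw [Int.odd_iff] at h1
      refine good_of_vec ha hb hg hh (fun _ => ⟨?_, ?_⟩) (fun h => absurd trivial h)
      · rw [Int.odd_iff]; omega
      · rw [Int.odd_iff]; omega
    · rw [Int.odd_iff] at h1
      by_cases h2 : Odd (a.valuation + g.valuation)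
      · rw [Int.odd_iff] at h2
        refine Good.of_cong (cong_0213 _ _ _ _) ?_
        refine good_of_vec ha hg hb hh (fun _ => ⟨?_, ?_⟩) (fun h => absurd trivial h)
        · rw [Int.odd_iff]; omega
        · rw [Int.odd_iff]; omega
      · rw [Int.odd_iff] at h2
        exact flip hI hℓ ha hb hg hh (by rw [Int.even_iff]; omega) (by rw [Int.even_iff]; omega)
          (by rw [Int.even_iff]; omega)
  · by_cases h1 : Even (a.valuation + b.valuation)
    · rw [Int.even_iff] at h1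
      refine good_of_vec ha hb hg hh (fun h => h.elim) (fun _ => ⟨?_, ?_⟩)
      · rw [Int.even_iff]; omega
      · rw [Int.even_iff]; omega
    · rw [Int.even_iff] at h1
      by_cases h2 : Even (a.valuation + g.valuation)
      · rw [Int.even_iff] at h2
        refine Good.of_cong (cong_0213 _ _ _ _) ?_
        refine good_of_vec ha hg hb hh (fun h => h.elim) (fun _ => ⟨?_, ?_⟩)
        · rw [Int.even_iff]; omega
        · rw [Int.even_iff]; omega
      · rw [Int.even_iff] at h2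
        refine Good.of_cong (cong_0321 _ _ _ _) ?_
        refine good_of_vec ha hh hg hb (fun h => h.elim) (fun _ => ⟨?_, ?_⟩)
        · rw [Int.even_iff]; omega
        · rw [Int.even_iff]; omega

/-- the parity of the four coefficients -/
theorem parity {m N : ℕ} (hN : N = 2 * m + 4) {B : Matrix (Fin N) (Fin N) ℚ_[ℓ]}
    (hdet : B.det ≠ 0) (hev : Even (Padic.valuation B.det))
    {C : Matrix (Fin N) ((Fin m ⊕ Fin m) ⊕ Fin 4) ℚ_[ℓ]}
    {D : Matrix ((Fin m ⊕ Fin m) ⊕ Fin 4) (Fin N) ℚ_[ℓ]} {d : Fin 4 → ℚ_[ℓ]} (hCD : C * D = 1)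
    (hd : ∀ i, d i ≠ 0)
    (hC : Cᵀ * B * C = fromBlocks (fromBlocks 0 1 1 0) 0 0 (diagonal d)) :
    Even ((d 0).valuation + (d 1).valuation + (d 2).valuation + (d 3).valuation) := by
  let e : Fin N ≃ (Fin m ⊕ Fin m) ⊕ Fin 4 := Fintype.equivOfCardEq (by
    simp only [Fintype.card_fin, Fintype.card_sum]
    omega)
  have h1 : (C.submatrix id e)ᵀ * B * C.submatrix id e =
      (Cᵀ * B * C).submatrix e e := by
    rw [Matrix.submatrix_mul (Cᵀ * B) C e id e Function.bijective_id,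
      Matrix.submatrix_mul Cᵀ B e id id Function.bijective_id, submatrix_id_id,
      transpose_submatrix]
  have h2 : C.submatrix id e * D.submatrix e id = 1 := by
    rw [← Matrix.submatrix_mul C D id e id e.bijective, hCD, submatrix_id_id]
  have h3 : (C.submatrix id e).det ≠ 0 := by
    have h4 := congrArg Matrix.det h2
    rw [Matrix.det_mul, Matrix.det_one] at h4
    exact left_ne_zero_of_mul_eq_one h4
  have h5 := congrArg Matrix.det h1
  rw [hC, Matrix.det_submatrix_equiv_self, Matrix.det_fromBlocks_zero₂₁, Matrix.det_diagonal,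
    Matrix.det_mul, Matrix.det_mul, Matrix.det_transpose, Fin.prod_univ_four] at h5
  set j : ℚ_[ℓ] := (fromBlocks (0 : Matrix (Fin m) (Fin m) ℚ_[ℓ])
    (1 : Matrix (Fin m) (Fin m) ℚ_[ℓ]) (1 : Matrix (Fin m) (Fin m) ℚ_[ℓ])
    (0 : Matrix (Fin m) (Fin m) ℚ_[ℓ])).det with hj
  have h6 : j * j = 1 := by
    rw [hj, ← Matrix.det_mul, fromBlocks_multiply]
    simp [fromBlocks_one]
  have hj0 : j ≠ 0 := left_ne_zero_of_mul_eq_one h6
  have h7 : j.valuation = 0 := by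
    have h8 := congrArg Padic.valuation h6
    rw [Padic.valuation_mul hj0 hj0, Padic.valuation_one] at h8
    omega
  have h9 := congrArg Padic.valuation h5
  rw [Padic.valuation_mul (mul_ne_zero h3 hdet) h3, Padic.valuation_mul h3 hdet,
    Padic.valuation_mul hj0 (mul_ne_zero (mul_ne_zero (mul_ne_zero (hd 0) (hd 1)) (hd 2)) (hd 3)),
    Padic.valuation_mul (mul_ne_zero (mul_ne_zero (hd 0) (hd 1)) (hd 2)) (hd 3),
    Padic.valuation_mul (mul_ne_zero (hd 0) (hd 1)) (hd 2), Padic.valuation_mul (hd 0) (hd 1),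
    h7] at h9
  rw [Int.even_iff] at hev ⊢
  omega

theorem assemble {m N : ℕ} {B : Matrix (Fin N) (Fin N) ℚ_[ℓ]}
    {C : Matrix (Fin N) ((Fin m ⊕ Fin m) ⊕ Fin 4) ℚ_[ℓ]}
    {D : Matrix ((Fin m ⊕ Fin m) ⊕ Fin 4) (Fin N) ℚ_[ℓ]} {d d' : Fin 4 → ℚ_[ℓ]}
    (hCD : C * D = 1) (hDC : D * C = 1)
    (hC : Cᵀ * B * C = fromBlocks (fromBlocks 0 1 1 0) 0 0 (diagonal d)) (h : Cong d d') :
    ∃ (C' : Matrix (Fin N) ((Fin m ⊕ Fin m) ⊕ Fin 4) ℚ_[ℓ])
      (D' : Matrix ((Fin m ⊕ Fin m) ⊕ Fin 4) (Fin N) ℚ_[ℓ]), C' * D' = 1 ∧ D' * C' = 1 ∧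
      C'ᵀ * B * C' = fromBlocks (fromBlocks 0 1 1 0) 0 0 (diagonal d') := by
  obtain ⟨P, P', h1, h2, h3⟩ := h
  let Q : Matrix ((Fin m ⊕ Fin m) ⊕ Fin 4) ((Fin m ⊕ Fin m) ⊕ Fin 4) ℚ_[ℓ] := fromBlocks 1 0 0 P
  let Q' : Matrix ((Fin m ⊕ Fin m) ⊕ Fin 4) ((Fin m ⊕ Fin m) ⊕ Fin 4) ℚ_[ℓ] := fromBlocks 1 0 0 P'
  have q1 : Q * Q' = 1 := by
    simp only [Q, Q', fromBlocks_multiply]
    simp [h1, fromBlocks_one]
  have q2 : Q' * Q = 1 := by
    simp only [Q, Q', fromBlocks_multiply]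
    simp [h2, fromBlocks_one]
  refine ⟨C * Q, Q' * D, ?_, ?_, ?_⟩
  · rw [Matrix.mul_assoc, ← Matrix.mul_assoc Q, q1, Matrix.one_mul, hCD]
  · rw [Matrix.mul_assoc, ← Matrix.mul_assoc D, hDC, Matrix.one_mul, q2]
  · have h4 : (C * Q)ᵀ * B * (C * Q) = Qᵀ * (Cᵀ * B * C) * Q := by
      rw [transpose_mul]
      simp only [Matrix.mul_assoc]
    rw [h4, hC]
    simp only [Q, fromBlocks_transpose, fromBlocks_multiply]
    simp [h3]

end padic

theorem t (hHM : Pool.Agent.Q282.OI.S_HM) (hISO3 : Pool.Agent.Q282.OI.S_ISO3) :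
    Pool.Agent.Y142.ZD.S_WE := by
  intro ℓ _ hℓ m N hN B hB hdet hev
  obtain ⟨C, D, d, hCD, hDC, hd, hC⟩ := hHM ℓ hℓ m 4 N (by norm_num) hN B hB hdet
  have hp := parity hN hdet hev hCD hd hC
  have hc := core hISO3 hℓ (hd 0) (hd 1) (hd 2) (hd 3) hp
  rw [← vec_eq d] at hc
  obtain ⟨⟨d₁, c1, n1, o1, -⟩, ⟨d₂, c2, n2, -, o2⟩⟩ := hc
  obtain ⟨C₁, D₁, a1, a2, a3⟩ := assemble hCD hDC hC c1
  obtain ⟨C₂, D₂, b1, b2, b3⟩ := assemble hCD hDC hC c2
  exact ⟨⟨C₁, D₁, d₁, a1, a2, n1, (o1 trivial).1, (o1 trivial).2, a3⟩,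
    ⟨C₂, D₂, d₂, b1, b2, n2, (o2 not_false).1, (o2 not_false).2, b3⟩⟩

end Pool.Agent.Q235.OI.WE
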